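import Mathlib
import Pool.Agent.Helper20.VF.GaussMom
import Pool.Agent.Helper20.VF.GaussY

/-!
# PS-12 (project PS, MP_19c155): one-dimensional Gaussian integrals
-/

set_option autoImplicit false

open MeasureTheory Set Metric Filter Module Matrix
open scoped NNReal Topology RealInnerProductSpace ENNReal Real

namespace Pool.Agent.Helper19.PS

open Pool.Agent.Helper20.VF (gm gw gm_pos gm_succ_succ integrable_pow_gauss integral_abs_pow_gauss)

private lemma ps12_gm_one : gm 1 = 1 := by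
  have h := Pool.Agent.Helper20.VF.gm_eq 1
  rw [h]
  norm_num

private lemma ps12_gm_odd (n : ℕ) : gm (2 * n + 1) = 2 ^ n * (n.factorial : ℝ) := by
  induction n with
  | zero => simpa using ps12_gm_one
  | succ n ih =>
    rw [show 2 * (n + 1) + 1 = (2 * n + 1) + 2 by ring, gm_succ_succ, ih, Nat.factorial_succ]
    push_cast
    ring

private lemma ps12_integrable_abs (j : ℕ) :
    Integrable (fun t : ℝ => |t| ^ j * Real.exp (-t ^ 2 / 2)) := by
  have h := (integrable_pow_gauss j).abs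
  refine h.congr (Eventually.of_forall fun t => ?_)
  show |t ^ j * Real.exp (-t ^ 2 / 2)| = |t| ^ j * Real.exp (-t ^ 2 / 2)
  rw [abs_mul, abs_pow, Real.abs_exp]

/-- integral of a finite combination of absolute moments -/
private lemma ps12_lint (s : Finset ℕ) (c : ℕ → ℝ) (hc : ∀ j ∈ s, 0 ≤ c j) (e : ℕ → ℕ)
    (f : ℝ → ℝ) (hf : ∀ z, f z = ∑ j ∈ s, c j * (|z| ^ (e j) * Real.exp (-z ^ 2 / 2))) :
    ∫⁻ z : ℝ, ENNReal.ofReal (f z) = ENNReal.ofReal (∑ j ∈ s, c j * (2 * gm (e j))) := by
  have hfe : f = fun z => ∑ j ∈ s, c j * (|z| ^ (e j) * Real.exp (-z ^ 2 / 2)) := funext hf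
  have hint : Integrable f := by
    rw [hfe]
    exact integrable_finsetSum s (fun j _ => (ps12_integrable_abs (e j)).const_mul (c j))
  have hnn : ∀ z, 0 ≤ f z := by
    intro z
    rw [hf]
    exact Finset.sum_nonneg (fun j hj => mul_nonneg (hc j hj) (by positivity))
  rw [← ofReal_integral_eq_lintegral_ofReal hint (Eventually.of_forall hnn)]
  congr 1
  rw [hfe, integral_finsetSum s (fun j _ => (ps12_integrable_abs (e j)).const_mul (c j))]
  refine Finset.sum_congr rfl (fun j _ => ?_)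
  rw [integral_const_mul, integral_abs_pow_gauss]

private lemma ps12_sum_le_exp (n : ℕ) (x : ℝ) (hx : 0 ≤ x) :
    ∑ j ∈ Finset.range n, x ^ j / (j.factorial : ℝ) ≤ Real.exp x :=
  Real.sum_le_exp_of_nonneg hx n

theorem int_z1 (k : ℕ) (w : ℝ) (hw : 0 ≤ w) :
    ∫⁻ z : ℝ, ENNReal.ofReal (|z| * (z ^ 2 + w) ^ k * Real.exp (-z ^ 2 / 2))
      ≤ ENNReal.ofReal (2 * gm (2 * k + 1) * Real.exp (w / 2)) := by
  rw [ps12_lint (Finset.range (k + 1)) (fun j => (k.choose j : ℝ) * w ^ j)
    (fun j _ => by positivity) (fun j => 2 * (k - j) + 1)]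
  · refine ENNReal.ofReal_le_ofReal ?_
    have h1 : ∀ j ∈ Finset.range (k + 1),
        (k.choose j : ℝ) * w ^ j * (2 * gm (2 * (k - j) + 1)) =
          2 * gm (2 * k + 1) * ((w / 2) ^ j / (j.factorial : ℝ)) := by
      intro j hj
      have hjk : j ≤ k := Nat.lt_succ_iff.mp (Finset.mem_range.mp hj)
      rw [ps12_gm_odd, ps12_gm_odd]
      have hf : (k.choose j : ℝ) * (j.factorial : ℝ) * ((k - j).factorial : ℝ) =
          (k.factorial : ℝ) := by
        exact_mod_cast Nat.choose_mul_factorial_mul_factorial hjk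
      have hj0 : (j.factorial : ℝ) ≠ 0 := by positivity
      have h2 : (2 : ℝ) ^ k = 2 ^ (k - j) * 2 ^ j := by
        rw [← pow_add, Nat.sub_add_cancel hjk]
      rw [← hf, h2, div_pow]
      field_simp
    rw [Finset.sum_congr rfl h1, ← Finset.mul_sum]
    have h3 := gm_pos (2 * k + 1)
    exact mul_le_mul_of_nonneg_left (ps12_sum_le_exp _ _ (by positivity)) (by positivity)
  · intro z
    rw [add_comm (z ^ 2) w, add_pow, Finset.mul_sum, Finset.sum_mul]
    refine Finset.sum_congr rfl (fun j _ => ?_)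
    rw [pow_succ |z| (2 * (k - j)), pow_mul |z|, sq_abs]
    ring

theorem int_z2 (k : ℕ) (hk : 1 ≤ k) (w : ℝ) (hw : 0 ≤ w) :
    ∫⁻ z : ℝ, ENNReal.ofReal (|z|⁻¹ * ((z ^ 2 + w) ^ k - w ^ k) * Real.exp (-z ^ 2 / 2))
      ≤ ENNReal.ofReal (2 * gm (2 * k - 1) * Real.exp w) := by
  rw [ps12_lint (Finset.range k) (fun j => (k.choose j : ℝ) * w ^ j)
    (fun j _ => by positivity) (fun j => 2 * (k - 1 - j) + 1)]
  · refine ENNReal.ofReal_le_ofReal ?_
    have hkk : 2 * k - 1 = 2 * (k - 1) + 1 := by omega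
    rw [hkk]
    have h1 : ∀ j ∈ Finset.range k,
        (k.choose j : ℝ) * w ^ j * (2 * gm (2 * (k - 1 - j) + 1)) ≤
          2 * gm (2 * (k - 1) + 1) * (w ^ j / (j.factorial : ℝ)) := by
      intro j hj
      have hjk : j < k := Finset.mem_range.mp hj
      obtain ⟨n, rfl⟩ : ∃ n, k = j + 1 + n := ⟨k - (j + 1), by omega⟩
      have e1 : j + 1 + n - 1 - j = n := by omega
      have e2 : j + 1 + n - 1 = j + n := by omega
      rw [e1, e2, ps12_gm_odd, ps12_gm_odd]
      have hf : ((j + 1 + n).choose j : ℝ) * (j.factorial : ℝ) * ((n + 1).factorial : ℝ) =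
          ((j + n + 1).factorial : ℝ) := by
        have h := Nat.choose_mul_factorial_mul_factorial (n := j + 1 + n) (k := j) (by omega)
        have e3 : j + 1 + n - j = n + 1 := by omega
        rw [e3] at h
        have e4 : j + n + 1 = j + 1 + n := by omega
        rw [e4]
        exact_mod_cast h
      rw [Nat.factorial_succ, Nat.factorial_succ] at hf
      push_cast at hf
      have hj0 : (0 : ℝ) < (j.factorial : ℝ) := by positivity
      have hn0 : (0 : ℝ) < (n.factorial : ℝ) := by positivity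
      have hn1 : (0 : ℝ) < (n : ℝ) + 1 := by positivity
      -- `(j + n + 1) ≤ 2 ^ j (n + 1)`
      have hpow : ((j : ℝ) + n + 1) ≤ 2 ^ j * ((n : ℝ) + 1) := by
        have h2 : ((j : ℝ) + 1) ≤ 2 ^ j := by
          have := Nat.lt_two_pow_self (n := j)
          exact_mod_cast this
        have h3 : ((j : ℝ) + 1) * ((n : ℝ) + 1) ≤ 2 ^ j * ((n : ℝ) + 1) :=
          mul_le_mul_of_nonneg_right h2 hn1.le
        have h4 : (0 : ℝ) ≤ (j : ℝ) * n := by positivity
        nlinarith
      have key : ((j + 1 + n).choose j : ℝ) * (2 ^ n * (n.factorial : ℝ)) ≤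
          2 ^ (j + n) * ((j + n).factorial : ℝ) / (j.factorial : ℝ) := by
        rw [le_div_iff₀ hj0]
        have h5 : ((j + 1 + n).choose j : ℝ) * (2 ^ n * (n.factorial : ℝ)) * (j.factorial : ℝ) *
            ((n : ℝ) + 1) = 2 ^ n * (((j : ℝ) + n + 1) * ((j + n).factorial : ℝ)) := by
          rw [← hf]
          ring
        have h6 : ((j + 1 + n).choose j : ℝ) * (2 ^ n * (n.factorial : ℝ)) * (j.factorial : ℝ) *
            ((n : ℝ) + 1) ≤ 2 ^ (j + n) * ((j + n).factorial : ℝ) * ((n : ℝ) + 1) := by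
          rw [h5, pow_add]
          have h7 : ((j : ℝ) + n + 1) * ((j + n).factorial : ℝ) ≤
              2 ^ j * ((n : ℝ) + 1) * ((j + n).factorial : ℝ) :=
            mul_le_mul_of_nonneg_right hpow (by positivity)
          have h8 : (2 : ℝ) ^ n * (((j : ℝ) + n + 1) * ((j + n).factorial : ℝ)) ≤
              2 ^ n * (2 ^ j * ((n : ℝ) + 1) * ((j + n).factorial : ℝ)) :=
            mul_le_mul_of_nonneg_left h7 (by positivity)
          refine h8.trans (le_of_eq ?_)
          ring
        exact le_of_mul_le_mul_right h6 hn1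
      have hw0 : (0 : ℝ) ≤ w ^ j := by positivity
      calc ((j + 1 + n).choose j : ℝ) * w ^ j * (2 * (2 ^ n * (n.factorial : ℝ)))
          = 2 * w ^ j * (((j + 1 + n).choose j : ℝ) * (2 ^ n * (n.factorial : ℝ))) := by ring
        _ ≤ 2 * w ^ j * (2 ^ (j + n) * ((j + n).factorial : ℝ) / (j.factorial : ℝ)) :=
            mul_le_mul_of_nonneg_left key (by positivity)
        _ = 2 * (2 ^ (j + n) * ((j + n).factorial : ℝ)) * (w ^ j / (j.factorial : ℝ)) := by
            ring
    refine (Finset.sum_le_sum h1).trans ?_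
    rw [← Finset.mul_sum]
    have h3 := gm_pos (2 * (k - 1) + 1)
    exact mul_le_mul_of_nonneg_left (ps12_sum_le_exp _ _ hw) (by positivity)
  · intro z
    rw [add_comm (z ^ 2) w, add_pow, Finset.sum_range_succ, Nat.sub_self, pow_zero, mul_one,
      Nat.choose_self, Nat.cast_one, mul_one, add_sub_cancel_right, Finset.mul_sum, Finset.sum_mul]
    refine Finset.sum_congr rfl (fun j hj => ?_)
    have hjk : j < k := Finset.mem_range.mp hj
    have e1 : k - j = (k - 1 - j) + 1 := by omega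
    rw [e1, pow_succ (z ^ 2), pow_succ |z| (2 * (k - 1 - j)), pow_mul |z|, sq_abs]
    have e2 : |z|⁻¹ * z ^ 2 = |z| := by
      rcases eq_or_ne z 0 with h | h
      · rw [h]; simp
      · rw [← sq_abs z, sq]
        field_simp
    calc |z|⁻¹ * (w ^ j * ((z ^ 2) ^ (k - 1 - j) * z ^ 2) * (k.choose j : ℝ)) *
          Real.exp (-z ^ 2 / 2)
        = (k.choose j : ℝ) * w ^ j * ((z ^ 2) ^ (k - 1 - j) * (|z|⁻¹ * z ^ 2) *
          Real.exp (-z ^ 2 / 2)) := by ring
      _ = _ := by rw [e2]

end Pool.Agent.Helper19.PS
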